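import Mathlib

set_option autoImplicit false

/-! # A stationary generalized Bratteli diagram with infinite Perron value and a finite
tail-invariant measure -/

namespace Pool.Agent.Results.MP_17dcfb_an.FiniteTailInvariant

open scoped ENNReal
open MeasureTheory

/-- `F` is the incidence matrix of a stationary generalized Bratteli diagram (`F v w` is the number
of edges from `w` to `v`): every vertex meets only finitely many edges, emits an edge and receives
an edge. -/
structure IsIncidence {V : Type} (F : V → V → ℕ) : Prop where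
  row_finite : ∀ v, {w | F v w ≠ 0}.Finite
  col_finite : ∀ w, {v | F v w ≠ 0}.Finite
  emits : ∀ w, ∃ v, F v w ≠ 0
  receives : ∀ v, ∃ w, F v w ≠ 0

open Classical in
/-- The entries of the powers of the matrix `F` (with values in `[0, ∞]`). -/
noncomputable def pow {V : Type} (F : V → V → ℕ) : ℕ → V → V → ℝ≥0∞
  | 0, v, w => if v = w then 1 else 0
  | n + 1, v, w => ∑' u, (F v u : ℝ≥0∞) * pow F n u w

/-- `F` is irreducible. -/
def Irreducible {V : Type} (F : V → V → ℕ) : Prop := ∀ v w, ∃ n, 1 ≤ n ∧ 0 < pow F n v w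

/-- the gcd of all `n ≥ 1` with `(F ^ n) v v > 0` is `1`, for every `v` -/
def Aperiodic {V : Type} (F : V → V → ℕ) : Prop :=
  ∀ v, ∀ d : ℕ, (∀ n, 1 ≤ n → 0 < pow F n v v → d ∣ n) → d = 1

/-- The Perron value `lim ((F ^ n) v w) ^ (1 / n)` is infinite. -/
def InfinitePerron {V : Type} (F : V → V → ℕ) : Prop :=
  ∀ v w, Filter.Tendsto (fun n : ℕ => pow F n v w ^ ((1 : ℝ) / n)) Filter.atTop (nhds ∞)

/-- The edges (of any level): an edge with source `s`, range `r` and a number `k < F r s`. -/
structure Edge {V : Type} (F : V → V → ℕ) : Type where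
  s : V
  r : V
  k : Fin (F r s)

instance {V : Type} (F : V → V → ℕ) : MeasurableSpace (Edge F) := ⊤

/-- The path space: all infinite paths, starting at level `0`. -/
def PathSpace {V : Type} (F : V → V → ℕ) : Type :=
  {x : ℕ → Edge F // ∀ i, (x i).r = (x (i + 1)).s}

/-- the σ-algebra generated by the cylinders -/
instance {V : Type} (F : V → V → ℕ) : MeasurableSpace (PathSpace F) :=
  inferInstanceAs (MeasurableSpace {x : ℕ → Edge F // ∀ i, (x i).r = (x (i + 1)).s})

/-- `e 0, …, e n` is a finite path starting at level `0` (the further values of `e` are ignored). -/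
def IsPath {V : Type} {F : V → V → ℕ} (n : ℕ) (e : ℕ → Edge F) : Prop :=
  ∀ i, i < n → (e i).r = (e (i + 1)).s

/-- The cylinder set of all infinite paths that begin with `e 0, …, e n`. -/
def cyl {V : Type} {F : V → V → ℕ} (n : ℕ) (e : ℕ → Edge F) : Set (PathSpace F) :=
  {x | ∀ i, i ≤ n → x.1 i = e i}

/-- `μ` takes the same value on the cylinders of any two finite paths which start at level `0` and
end at the same vertex of the same level. -/
def TailInvariant {V : Type} {F : V → V → ℕ} (μ : Measure (PathSpace F)) : Prop :=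
  ∀ (n : ℕ) (e e' : ℕ → Edge F), IsPath n e → IsPath n e' → (e n).r = (e' n).r →
    μ (cyl n e) = μ (cyl n e')

section general

variable {V : Type} (F : V → V → ℕ)

theorem pow_mul_le (a b : ℕ) (v u w : V) : pow F a v u * pow F b u w ≤ pow F (a + b) v w := by
  classical
  induction a generalizing v with
  | zero =>
    simp only [pow, Nat.zero_add]
    by_cases h : v = u
    · subst h; simp
    · simp [h]
  | succ a ih =>
    have h1 : a + 1 + b = (a + b) + 1 := by ring
    rw [h1]
    simp only [pow]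
    rw [← ENNReal.tsum_mul_right]
    apply ENNReal.tsum_le_tsum
    intro t
    rw [mul_assoc]
    exact mul_le_mul_right (ih t) _

theorem pow_one' (v w : V) : pow F 1 v w = F v w := by
  classical
  simp only [pow]
  rw [tsum_eq_single w]
  · simp
  · intro u hu
    simp [hu]

/-- there is a walk from `w` to `v` of positive length -/
def Reach (v w : V) : Prop := ∃ n, 1 ≤ n ∧ 0 < pow F n v w

variable {F}

theorem Reach.trans {v u w : V} (h1 : Reach F v u) (h2 : Reach F u w) : Reach F v w := by
  obtain ⟨a, ha, h1⟩ := h1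
  obtain ⟨b, hb, h2⟩ := h2
  exact ⟨a + b, by omega, lt_of_lt_of_le (ENNReal.mul_pos h1.ne' h2.ne') (pow_mul_le F a b v u w)⟩

theorem Reach.of_edge {v w : V} (h : F v w ≠ 0) : Reach F v w := by
  refine ⟨1, le_rfl, ?_⟩
  rw [pow_one']
  exact_mod_cast Nat.pos_of_ne_zero h

end general

/-! ### The example -/

/-- edges `z → z + 1`, `n → -n` for `n ≥ 1`, and `n` loops at `-n` for `n ≥ 1` -/
def F0 (v w : ℤ) : ℕ :=
  if v = w + 1 then 1 else if 1 ≤ w ∧ v = -w then 1 else if v = w ∧ w < 0 then w.natAbs else 0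

theorem F0_succ (w : ℤ) : F0 (w + 1) w = 1 := by simp [F0]

theorem F0_neg (w : ℤ) (hw : 1 ≤ w) : F0 (-w) w = 1 := by
  unfold F0
  rw [if_neg (by omega), if_pos ⟨hw, rfl⟩]

theorem F0_loop (n : ℕ) (hn : 1 ≤ n) : F0 (-(n : ℤ)) (-(n : ℤ)) = n := by
  unfold F0
  rw [if_neg (by omega), if_neg (by omega), if_pos ⟨rfl, by omega⟩]
  simp

theorem isIncidence : IsIncidence F0 where
  row_finite := by
    intro v
    refine Set.Finite.subset (Set.toFinite ({v - 1, -v, v} : Set ℤ)) ?_
    intro w hw
    simp only [Set.mem_ofPred_eq, F0] at hw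
    simp only [Set.mem_insert_iff, Set.mem_singleton_iff]
    by_cases h1 : v = w + 1
    · left; omega
    · rw [if_neg h1] at hw
      by_cases h2 : 1 ≤ w ∧ v = -w
      · right; left; omega
      · rw [if_neg h2] at hw
        by_cases h3 : v = w ∧ w < 0
        · right; right; omega
        · rw [if_neg h3] at hw
          exact absurd rfl hw
  col_finite := by
    intro w
    refine Set.Finite.subset (Set.toFinite ({w + 1, -w, w} : Set ℤ)) ?_
    intro v hv
    simp only [Set.mem_ofPred_eq, F0] at hv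
    simp only [Set.mem_insert_iff, Set.mem_singleton_iff]
    by_cases h1 : v = w + 1
    · left; omega
    · rw [if_neg h1] at hv
      by_cases h2 : 1 ≤ w ∧ v = -w
      · right; left; omega
      · rw [if_neg h2] at hv
        by_cases h3 : v = w ∧ w < 0
        · right; right; omega
        · rw [if_neg h3] at hv
          exact absurd rfl hv
  emits := fun w => ⟨w + 1, by rw [F0_succ]; norm_num⟩
  receives := fun v => ⟨v - 1, by
    have := F0_succ (v - 1)
    rw [sub_add_cancel] at this
    rw [this]; norm_num⟩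

theorem reach_up (z : ℤ) (k : ℕ) : Reach F0 (z + (k + 1 : ℕ)) z := by
  induction k with
  | zero =>
    apply Reach.of_edge
    have := F0_succ z
    simp only [zero_add, Nat.cast_one]
    rw [this]; norm_num
  | succ k ih =>
    refine Reach.trans ?_ ih
    apply Reach.of_edge
    have := F0_succ (z + (k + 1 : ℕ))
    have h : z + ((k + 1 + 1 : ℕ) : ℤ) = z + (k + 1 : ℕ) + 1 := by push_cast; ring
    rw [h, this]
    norm_num

theorem reach_lt {v w : ℤ} (h : w < v) : Reach F0 v w := by
  have h1 := reach_up w (v - w - 1).toNat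
  have h2 : w + (((v - w - 1).toNat + 1 : ℕ) : ℤ) = v := by
    push_cast
    rw [Int.toNat_of_nonneg (by omega)]
    ring
  rwa [h2] at h1

/-- every vertex reaches `-N` and is reached from `-N`, for all large `N` -/
theorem reach_neg (N : ℕ) (hN : 1 ≤ N) (w : ℤ) (hw : w < N) : Reach F0 (-(N : ℤ)) w := by
  refine Reach.trans (u := (N : ℤ)) ?_ (reach_lt hw)
  apply Reach.of_edge
  rw [F0_neg _ (by omega)]
  norm_num

theorem irreducible : Irreducible F0 := by
  intro v w
  let N : ℕ := v.natAbs + w.natAbs + 1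
  have h1 : Reach F0 v (-(N : ℤ)) := reach_lt (by omega)
  have h2 : Reach F0 (-(N : ℤ)) w := reach_neg N (by omega) w (by omega)
  exact h1.trans h2

theorem aperiodic : Aperiodic F0 := by
  intro v d hd
  let N : ℕ := v.natAbs + 1
  obtain ⟨a, ha, h1⟩ : Reach F0 v (-(N : ℤ)) := reach_lt (by omega)
  obtain ⟨b, hb, h2⟩ : Reach F0 (-(N : ℤ)) v := reach_neg N (by omega) v (by omega)
  have h3 : 0 < pow F0 (a + b) v v :=
    lt_of_lt_of_le (ENNReal.mul_pos h1.ne' h2.ne') (pow_mul_le F0 a b v _ v)
  have h4 : 0 < pow F0 1 (-(N : ℤ)) (-(N : ℤ)) := by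
    rw [pow_one', F0_loop N (by omega)]
    exact_mod_cast (by omega : 0 < N)
  have h5 : 0 < pow F0 (1 + b) (-(N : ℤ)) v :=
    lt_of_lt_of_le (ENNReal.mul_pos h4.ne' h2.ne') (pow_mul_le F0 1 b _ _ v)
  have h6 : 0 < pow F0 (a + (1 + b)) v v :=
    lt_of_lt_of_le (ENNReal.mul_pos h1.ne' h5.ne') (pow_mul_le F0 a (1 + b) v _ v)
  have d1 := hd _ (by omega) h3
  have d2 := hd _ (by omega) h6
  have d3 : d ∣ (a + (1 + b)) - (a + b) := Nat.dvd_sub d2 d1
  have h7 : (a + (1 + b)) - (a + b) = 1 := by omega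
  rw [h7] at d3
  exact Nat.dvd_one.mp d3

theorem one_le_of_pos_pow (n : ℕ) (v w : ℤ) : pow F0 n v w = 0 ∨ 1 ≤ pow F0 n v w := by
  classical
  induction n generalizing v with
  | zero =>
    simp only [pow]
    split_ifs
    · right; exact le_rfl
    · left; rfl
  | succ n ih =>
    by_cases h : ∀ u, (F0 v u : ℝ≥0∞) * pow F0 n u w = 0
    · left
      simp only [pow]
      exact ENNReal.tsum_eq_zero.mpr h
    · right
      push Not at h
      obtain ⟨u, hu⟩ := h
      simp only [pow]
      refine le_trans ?_ (ENNReal.le_tsum u)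
      have h1 : (F0 v u : ℝ≥0∞) ≠ 0 := left_ne_zero_of_mul hu
      have h2 : pow F0 n u w ≠ 0 := right_ne_zero_of_mul hu
      have h3 : (1 : ℝ≥0∞) ≤ (F0 v u : ℝ≥0∞) := by
        have : F0 v u ≠ 0 := by exact_mod_cast h1
        exact_mod_cast Nat.one_le_iff_ne_zero.mpr this
      have h4 := (ih u).resolve_left h2
      calc (1 : ℝ≥0∞) = 1 * 1 := (one_mul 1).symm
        _ ≤ (F0 v u : ℝ≥0∞) * pow F0 n u w := mul_le_mul' h3 h4

theorem loop_pow (N m : ℕ) (hN : 1 ≤ N) : (N : ℝ≥0∞) ^ m ≤ pow F0 m (-(N : ℤ)) (-(N : ℤ)) := by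
  classical
  induction m with
  | zero => simp [pow]
  | succ m ih =>
    calc (N : ℝ≥0∞) ^ (m + 1) = N * (N : ℝ≥0∞) ^ m := by rw [pow_succ, mul_comm]
      _ ≤ pow F0 1 (-(N : ℤ)) (-(N : ℤ)) * pow F0 m (-(N : ℤ)) (-(N : ℤ)) := by
          rw [pow_one', F0_loop N hN]
          exact mul_le_mul' le_rfl ih
      _ ≤ pow F0 (1 + m) (-(N : ℤ)) (-(N : ℤ)) := pow_mul_le F0 1 m _ _ _
      _ = pow F0 (m + 1) (-(N : ℤ)) (-(N : ℤ)) := by rw [add_comm]

theorem infinitePerron : InfinitePerron F0 := by
  intro v w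
  rw [ENNReal.tendsto_nhds_top_iff_nat]
  intro K0
  set K := K0 + v.natAbs + w.natAbs + 1 with hK
  set N := K ^ 2 with hN
  have hKN : K ≤ N := by nlinarith
  obtain ⟨a, ha, h1⟩ : Reach F0 v (-(N : ℤ)) := reach_lt (by omega)
  obtain ⟨b, hb, h2⟩ : Reach F0 (-(N : ℤ)) w := reach_neg N (by omega) w (by omega)
  filter_upwards [Filter.eventually_ge_atTop (2 * (a + b))] with n hn
  have g1 := (one_le_of_pos_pow a v (-(N : ℤ))).resolve_left h1.ne'
  have g2 := (one_le_of_pos_pow b (-(N : ℤ)) w).resolve_left h2.ne'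
  obtain ⟨m, rfl⟩ : ∃ m, n = a + (m + b) := ⟨n - a - b, by omega⟩
  have g3 : (K : ℝ≥0∞) ^ (a + (m + b)) ≤ pow F0 (a + (m + b)) v w := by
    calc (K : ℝ≥0∞) ^ (a + (m + b)) ≤ (K : ℝ≥0∞) ^ (2 * m) := by
          apply pow_le_pow_right₀ _ (by omega)
          exact_mod_cast (by omega : 1 ≤ K)
      _ = (N : ℝ≥0∞) ^ m := by
          rw [hN, pow_mul]
          push_cast
          rfl
      _ = 1 * ((N : ℝ≥0∞) ^ m * 1) := by rw [one_mul, mul_one]
      _ ≤ pow F0 a v (-(N : ℤ)) * (pow F0 m (-(N : ℤ)) (-(N : ℤ)) * pow F0 b (-(N : ℤ)) w) :=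
          mul_le_mul' g1 (mul_le_mul' (loop_pow N m (by omega)) g2)
      _ ≤ pow F0 a v (-(N : ℤ)) * pow F0 (m + b) (-(N : ℤ)) w :=
          mul_le_mul' le_rfl (pow_mul_le F0 m b _ _ _)
      _ ≤ pow F0 (a + (m + b)) v w := pow_mul_le F0 a (m + b) _ _ _
  have hpos : (0 : ℝ) < ((a + (m + b) : ℕ) : ℝ) := by
    have : 0 < a + (m + b) := by omega
    exact_mod_cast this
  calc (K0 : ℝ≥0∞) < (K : ℝ≥0∞) := by
        exact_mod_cast (by omega : K0 < K)
    _ = ((K : ℝ≥0∞) ^ (a + (m + b))) ^ ((1 : ℝ) / ((a + (m + b) : ℕ) : ℝ)) := by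
        rw [← ENNReal.rpow_natCast, ← ENNReal.rpow_mul, mul_one_div_cancel hpos.ne',
          ENNReal.rpow_one]
    _ ≤ pow F0 (a + (m + b)) v w ^ ((1 : ℝ) / ((a + (m + b) : ℕ) : ℝ)) := by
        apply ENNReal.rpow_le_rpow g3
        positivity

/-- the edge from `i` to `i + 1` -/
def star (i : ℕ) : Edge F0 := ⟨(i : ℤ), (i : ℤ) + 1, ⟨0, by rw [F0_succ]; norm_num⟩⟩

/-- the path through the vertices `0, 1, 2, …` -/
def starPath : PathSpace F0 := ⟨star, fun i => by simp [star]⟩

theorem edge_eq (e : Edge F0) (n : ℕ) (h : e.r = (n : ℤ) + 1) : e = star n := by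
  obtain ⟨s, r, k⟩ := e
  simp only at h
  subst h
  have hs : s = n := by
    have hk : F0 ((n : ℤ) + 1) s ≠ 0 := by
      intro h0
      rw [h0] at k
      exact k.elim0
    unfold F0 at hk
    by_cases h1 : (n : ℤ) + 1 = s + 1
    · omega
    · rw [if_neg h1, if_neg (by omega), if_neg (by omega)] at hk
      exact absurd rfl hk
  subst hs
  have hk : k = ⟨0, by rw [F0_succ]; norm_num⟩ := by
    apply Fin.ext
    have h1 := k.2
    have h2 := F0_succ (n : ℤ)
    show k.val = 0
    omega
  rw [hk]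
  rfl

theorem path_eq (n : ℕ) (e : ℕ → Edge F0) (he : IsPath n e) (h : (e n).r = (n : ℤ) + 1) :
    ∀ i, i ≤ n → e i = star i := by
  induction n with
  | zero =>
    intro i hi
    obtain rfl : i = 0 := by omega
    exact edge_eq _ _ h
  | succ n ih =>
    intro i hi
    have h1 := edge_eq _ _ h
    rcases Nat.lt_or_ge n i with h2 | h2
    · obtain rfl : i = n + 1 := by omega
      exact h1
    · apply ih (fun j hj => he j (by omega)) _ i h2
      rw [he n (by omega), h1]
      simp [star]

theorem measurableSet_cyl {V : Type} {F : V → V → ℕ} (n : ℕ) (e : ℕ → Edge F) :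
    MeasurableSet (cyl n e) := by
  have h : cyl n e = ⋂ i : ℕ, ⋂ _ : i ≤ n, {x : PathSpace F | x.1 i = e i} := by
    ext x
    simp [cyl]
  rw [h]
  refine MeasurableSet.iInter fun i => MeasurableSet.iInter fun _ => ?_
  have h1 : Measurable (fun x : PathSpace F => x.1 i) :=
    (measurable_pi_apply i).comp measurable_subtype_coe
  exact h1 (MeasurableSpace.measurableSet_top (s := {e i}))

theorem tailInvariant : TailInvariant (Measure.dirac starPath) := by
  intro n e e' he he' hr
  rw [Measure.dirac_apply' _ (measurableSet_cyl n e), Measure.dirac_apply' _ (measurableSet_cyl n e')]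
  have key : ∀ f f' : ℕ → Edge F0, IsPath n f' → (f n).r = (f' n).r → starPath ∈ cyl n f →
      starPath ∈ cyl n f' := by
    intro f f' hf' hrr hmem i hi
    have h1 : star n = f n := hmem n le_rfl
    have h2 : (f' n).r = (n : ℤ) + 1 := by
      rw [← hrr, ← h1]
      rfl
    exact (path_eq n f' hf' h2 i hi).symm
  by_cases h : starPath ∈ cyl n e
  · rw [Set.indicator_of_mem h, Set.indicator_of_mem (key e e' he' hr h)]
  · rw [Set.indicator_of_notMem h, Set.indicator_of_notMem fun h' => h (key e' e he hr.symm h')]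

/-- There is a stationary generalized Bratteli diagram (on a countably infinite vertex set) whose
incidence matrix is irreducible, aperiodic and has no finite Perron eigenvalue, which carries a
nonzero finite tail-invariant measure (even a probability measure). -/
theorem result : ∃ (V : Type) (_ : Countable V) (_ : Infinite V) (F : V → V → ℕ),
    IsIncidence F ∧ Irreducible F ∧ Aperiodic F ∧ InfinitePerron F ∧
    ∃ μ : Measure (PathSpace F), IsProbabilityMeasure μ ∧ TailInvariant μ :=
  ⟨ℤ, inferInstance, inferInstance, F0, isIncidence, irreducible, aperiodic, infinitePerron,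
    Measure.dirac starPath, inferInstance, tailInvariant⟩

end Pool.Agent.Results.MP_17dcfb_an.FiniteTailInvariant
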